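import Mathlib

set_option autoImplicit false

/-!
# The rings `A(n,d)` and the strong Lefschetz property
-/

universe u

namespace Pool.Agent.H208.SLP

open MvPolynomial

/-- The ring `B = K[e_1, ..., e_n]`: the subalgebra of `K[x_1, ..., x_n]` generated by the
elementary symmetric polynomials `e_1, ..., e_n`. -/
noncomputable abbrev BB (K : Type u) [Field K] (n : ℕ) : Subalgebra K (MvPolynomial (Fin n) K) :=
  Algebra.adjoin K (Set.range fun i : Fin n => esymm (Fin n) K (i + 1))

/-- The ideal of `B` generated by `ê_1, ..., ê_n`, where `ê_i = e_i(x_1^d, ..., x_n^d)`.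
(`expand d p` is `p(x_1^d, ..., x_n^d)`.) -/
noncomputable def II (K : Type u) [Field K] (n d : ℕ) : Ideal (BB K n) :=
  Ideal.span {b | ∃ i : Fin n, (b : MvPolynomial (Fin n) K) = expand d (esymm (Fin n) K (i + 1))}

/-- The ring `A(n,d) = B/(ê_1, ..., ê_n)`. -/
abbrev AA (K : Type u) [Field K] (n d : ℕ) : Type u := BB K n ⧸ II K n d

/-- The graded piece `A(n,d)_j`: the classes of the elements of `B` which are homogeneous of
degree `j` in `x_1, ..., x_n`. -/
noncomputable def piece (K : Type u) [Field K] (n d j : ℕ) : Submodule K (AA K n d) :=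
  ((homogeneousSubmodule (Fin n) K j).comap (BB K n).val.toLinearMap).map
    (Ideal.Quotient.mkₐ K (II K n d)).toLinearMap

/-- `A(n,d)` has the strong Lefschetz property: for some `ℓ` of degree one, all multiplication maps
`ℓ^k : A_j → A_{j+k}`, `k ≥ 1`, are injective or surjective. -/
def HasSLP (K : Type u) [Field K] (n d : ℕ) : Prop :=
  ∃ ℓ ∈ piece K n d 1, ∀ j k : ℕ, 1 ≤ k →
    (∀ a ∈ piece K n d j, ℓ ^ k * a = 0 → a = 0) ∨
    (∀ b ∈ piece K n d (j + k), ∃ a ∈ piece K n d j, ℓ ^ k * a = b)

end Pool.Agent.H208.SLP
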