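import Mathlib

set_option autoImplicit false

/-!
# The elements `e^a ê^b`

Let `e_i` be the elementary symmetric polynomials in `n` variables and `ê_i = e_i(x^d)`.
The products `e^a ê^b` with `0 ≤ a_i < d` have pairwise different leading monomials.
-/

universe u

namespace Pool.Agent.H208.SLP

open MvPolynomial AddMonoidAlgebra Finset

variable {K : Type u} [Field K] {n : ℕ}

theorem supDegree_expand {d : ℕ} (hd : 0 < d) (p : MvPolynomial (Fin n) K) (hp : p ≠ 0) :
    supDegree toLex (expand d p) = toLex (d • ofLex (supDegree toLex p)) ∧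
      leadingCoeff toLex (expand d p) = leadingCoeff toLex p := by
  classical
  have hlc : MvPolynomial.coeff (ofLex (supDegree toLex p)) p ≠ 0 := by
    rw [← leadingCoeff_toLex, ne_eq, leadingCoeff_eq_zero toLex.injective]
    exact hp
  have h1 : MvPolynomial.coeff (d • ofLex (supDegree toLex p)) (expand d p) =
      MvPolynomial.coeff (ofLex (supDegree toLex p)) p := coeff_expand_smul d hd.ne' _ _
  have key : supDegree toLex (expand d p) = toLex (d • ofLex (supDegree toLex p)) := by
    refine supDegree_eq_of_isMaxOn ?_ ?_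
    · change _ ∈ (expand d p).support
      rw [MvPolynomial.mem_support_iff, h1]
      exact hlc
    · intro m hm
      have hm' : m ∈ (expand d p).support := hm
      obtain ⟨m', hm'', rfl⟩ := Finset.mem_image.1 (support_expand_subset p hm')
      have h2 : toLex m' ≤ supDegree toLex p := Finset.le_sup (f := toLex) hm''
      have h3 : d • toLex m' ≤ d • supDegree toLex p := nsmul_le_nsmul_right h2 d
      exact h3
  refine ⟨key, ?_⟩
  rw [leadingCoeff_toLex, leadingCoeff_toLex, key]
  exact h1

/-- the algebra homomorphism `X_i ↦ e_{i+1}` -/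
noncomputable def eps (K : Type u) [Field K] (n : ℕ) :
    MvPolynomial (Fin n) K →ₐ[K] MvPolynomial (Fin n) K :=
  aeval (fun i : Fin n => esymm (Fin n) K (i + 1))

theorem eps_eq (p : MvPolynomial (Fin n) K) :
    eps K n p = (esymmAlgHom (Fin n) K n p).val := (esymmAlgHom_apply p).symm

theorem eps_injective : Function.Injective (eps K n) := by
  intro p q h
  rw [eps_eq, eps_eq] at h
  exact esymmAlgHom_fin_injective K le_rfl (Subtype.ext h)

theorem supDegree_eps (m : Fin n →₀ ℕ) :
    ofLex (supDegree toLex (eps K n (monomial m 1))) = Fin.accumulate n n m := by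
  rw [eps_eq]
  exact supDegree_esymmAlgHomMonomial one_ne_zero m le_rfl

theorem monic_eps (m : Fin n →₀ ℕ) : Monic toLex (eps K n (monomial m 1)) := by
  rw [eps_eq]
  exact leadingCoeff_esymmAlgHomMonomial m le_rfl

/-- remainder -/
noncomputable def modd (d : ℕ) (m : Fin n →₀ ℕ) : Fin n →₀ ℕ := m.mapRange (· % d) (Nat.zero_mod d)

/-- quotient -/
noncomputable def divd (d : ℕ) (m : Fin n →₀ ℕ) : Fin n →₀ ℕ := m.mapRange (· / d) (Nat.zero_div d)

theorem modd_add_divd (d : ℕ) (m : Fin n →₀ ℕ) : modd d m + d • divd d m = m := by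
  ext i
  simp [modd, divd, Nat.mod_add_div]

/-- the element `e^(m mod d) ê^(m div d)` -/
noncomputable def tt (K : Type u) [Field K] {n : ℕ} (d : ℕ) (m : Fin n →₀ ℕ) :
    MvPolynomial (Fin n) K :=
  eps K n (monomial (modd d m) 1) * expand d (eps K n (monomial (divd d m) 1))

theorem supDegree_tt {d : ℕ} (hd : 0 < d) (m : Fin n →₀ ℕ) :
    ofLex (supDegree toLex (tt K d m)) = Fin.accumulate n n m ∧ Monic toLex (tt K d m) := by
  have h1 := monic_eps (K := K) (modd d m)
  have h2 := monic_eps (K := K) (divd d m)
  have h3 := supDegree_expand hd _ h2.ne_zero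
  have h4 : Monic toLex (expand d (eps K n (monomial (divd d m) 1))) := by
    rw [Monic, h3.2]; exact h2
  refine ⟨?_, ?_⟩
  · rw [tt, Monic.supDegree_mul_of_ne_zero_left toLex.injective toLex_add h4 h1.ne_zero, h3.1]
    ext i
    have e1 := congrFun (supDegree_eps (K := K) (modd d m)) i
    have e2 := congrFun (supDegree_eps (K := K) (divd d m)) i
    rw [ofLex_add, Finsupp.add_apply, ofLex_toLex, Finsupp.smul_apply, e1, e2]
    conv_rhs => rw [← modd_add_divd d m]
    rw [Finsupp.coe_add, map_add, Finsupp.coe_smul, map_nsmul]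
    rfl
  · exact h1.mul toLex.injective toLex_add h4

theorem linearIndependent_tt {d : ℕ} (hd : 0 < d) :
    LinearIndependent K (fun m : Fin n →₀ ℕ => tt K d m) := by
  classical
  rw [linearIndependent_iff']
  intro s g hs i hi
  by_contra hne
  have h0 : ∑ j ∈ s.filter (fun j => g j ≠ 0), g j • tt K d j = 0 := by
    rw [← hs]
    refine Finset.sum_filter_of_ne fun j _ hj hgj => hj (by rw [hgj, zero_smul])
  have hsup : ∀ j, g j ≠ 0 → supDegree toLex (g j • tt K d j) = supDegree toLex (tt K d j) := by
    intro j hj
    have hs : (g j • tt K d j).support = (tt K d j).support := by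
      ext m
      rw [MvPolynomial.mem_support_iff, MvPolynomial.mem_support_iff, MvPolynomial.coeff_smul]
      simp [hj]
    change Finset.sup (g j • tt K d j).support toLex = Finset.sup (tt K d j).support toLex
    rw [hs]
  refine sum_ne_zero_of_injOn_supDegree (D := toLex) (s := s.filter (fun j => g j ≠ 0))
    (f := fun j => g j • tt K d j) ⟨i, by simp [hi, hne]⟩ ?_ ?_ h0
  · intro j hj
    have hj' := (Finset.mem_filter.1 hj).2
    exact smul_ne_zero hj' (supDegree_tt hd j).2.ne_zero
  · intro j hj k hk hjk
    have hj' := (Finset.mem_filter.1 hj).2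
    have hk' := (Finset.mem_filter.1 hk).2
    have e : supDegree toLex (tt K d j) = supDegree toLex (tt K d k) := by
      rw [← hsup j hj', ← hsup k hk']
      exact hjk
    have e2 := congrArg ofLex e
    have e3 : Fin.accumulate n n j = Fin.accumulate n n k := by
      rw [← (supDegree_tt (K := K) hd j).1, ← (supDegree_tt (K := K) hd k).1, e]
    exact DFunLike.coe_injective (Fin.accumulate_injective le_rfl e3)

end Pool.Agent.H208.SLP
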