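import Mathlib
import Pool.Agent.H208.SLP.Basic

set_option autoImplicit false

universe u

namespace Pool.Agent.H208.SLP

open MvPolynomial AddMonoidAlgebra Finset

variable {K : Type u} [Field K] {n : ℕ}

/-- weighted degree of an exponent -/
def wt (m : Fin n →₀ ℕ) : ℕ := ∑ i : Fin n, ((i : ℕ) + 1) * m i

theorem wt_add (m m' : Fin n →₀ ℕ) : wt (m + m') = wt m + wt m' := by
  simp only [wt, Finsupp.add_apply, mul_add, Finset.sum_add_distrib]

theorem wt_smul (d : ℕ) (m : Fin n →₀ ℕ) : wt (d • m) = d * wt m := by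
  simp only [wt, Finsupp.smul_apply, smul_eq_mul, Finset.mul_sum]
  exact Finset.sum_congr rfl fun i _ => by ring

theorem wt_modd_add (d : ℕ) (m : Fin n →₀ ℕ) : wt (modd d m) + d * wt (divd d m) = wt m := by
  rw [← wt_smul, ← wt_add, modd_add_divd]

theorem esymm_isHomogeneous (k : ℕ) : (esymm (Fin n) K k).IsHomogeneous k := by
  rw [esymm]
  refine IsHomogeneous.sum _ _ _ fun t ht => ?_
  have h := IsHomogeneous.prod t (fun i => (X i : MvPolynomial (Fin n) K)) (fun _ => 1)
    fun i _ => isHomogeneous_X K i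
  rw [Finset.sum_const, smul_eq_mul, mul_one, (Finset.mem_powersetCard.1 ht).2] at h
  exact h

theorem eps_monomial (m : Fin n →₀ ℕ) :
    eps K n (monomial m 1) = ∏ i : Fin n, esymm (Fin n) K (i + 1) ^ (m i) := by
  rw [eps, aeval_monomial, map_one, one_mul, Finsupp.prod_fintype _ _ (fun i => pow_zero _)]

theorem eps_monomial_hom (m : Fin n →₀ ℕ) : (eps K n (monomial m 1)).IsHomogeneous (wt m) := by
  rw [eps_monomial]
  refine IsHomogeneous.prod _ _ _ fun i _ => ?_
  exact (esymm_isHomogeneous _).pow _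

theorem expand_hom {d k : ℕ} {p : MvPolynomial (Fin n) K} (hp : p.IsHomogeneous k) :
    (expand d p).IsHomogeneous (d * k) := by
  have h := hp.aeval (fun i => (X i : MvPolynomial (Fin n) K) ^ d) (n := d)
    (fun i => by simpa using (isHomogeneous_X K i).pow d)
  exact h

theorem tt_hom (d : ℕ) (m : Fin n →₀ ℕ) : (tt K d m).IsHomogeneous (wt m) := by
  rw [← wt_modd_add d m]
  exact (eps_monomial_hom _).mul (expand_hom (eps_monomial_hom _))

theorem expand_eps (d : ℕ) (s : MvPolynomial (Fin n) K) : ∃ s', eps K n s' = expand d (eps K n s) := by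
  have hsym : (expand d (eps K n s)).IsSymmetric := by
    intro e
    rw [rename_expand]
    congr 1
    rw [eps_eq]
    exact (esymmAlgHom (Fin n) K n s).2 e
  obtain ⟨s', hs'⟩ := (esymmAlgHom_fin_bijective K n).2 ⟨_, hsym⟩
  refine ⟨s', ?_⟩
  rw [eps_eq, hs']

theorem tt_mem (d : ℕ) (m : Fin n →₀ ℕ) : ∃ s, eps K n s = tt K d m := by
  obtain ⟨s', hs'⟩ := expand_eps d (monomial (divd d m) (1 : K))
  exact ⟨monomial (modd d m) 1 * s', by rw [map_mul, hs', tt]⟩

theorem finite_wt (i : ℕ) : {m : Fin n →₀ ℕ | wt m = i}.Finite := by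
  refine (Set.finite_Iic (Finsupp.equivFunOnFinite.symm (fun _ : Fin n => i))).subset ?_
  intro m hm k
  have hm' : wt m = i := hm
  rw [← hm']
  change m k ≤ wt m
  rw [wt]
  calc m k ≤ ((k : ℕ) + 1) * m k := Nat.le_mul_of_pos_left _ (Nat.succ_pos _)
    _ ≤ _ := Finset.single_le_sum (f := fun i : Fin n => ((i : ℕ) + 1) * m i)
        (fun _ _ => Nat.zero_le _) (Finset.mem_univ k)

instance (i : ℕ) : Finite {m : Fin n →₀ ℕ // wt m = i} := finite_wt i

/-- homogeneous symmetric polynomials are combinations of the monomials in the `e_i` of the right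
weight -/
theorem mem_span_eps {i : ℕ} (s : MvPolynomial (Fin n) K) (h : (eps K n s).IsHomogeneous i) :
    eps K n s ∈ Submodule.span K
      (Set.range fun m : {m : Fin n →₀ ℕ // wt m = i} => eps K n (monomial m.1 1)) := by
  have h1 : homogeneousComponent i (eps K n s) = eps K n s := homogeneousComponent_eq_self h
  have h2 : eps K n s = ∑ m ∈ s.support, MvPolynomial.coeff m s • eps K n (monomial m 1) := by
    conv_lhs => rw [s.as_sum]
    rw [map_sum]
    refine Finset.sum_congr rfl fun m _ => ?_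
    rw [← map_smul, smul_monomial, smul_eq_mul, mul_one]
  rw [← h1, h2, map_sum]
  refine Submodule.sum_mem _ fun m _ => ?_
  rw [map_smul]
  refine Submodule.smul_mem _ _ ?_
  rw [homogeneousComponent_of_mem (eps_monomial_hom m)]
  split_ifs with hm
  · exact Submodule.subset_span ⟨⟨m, hm.symm⟩, rfl⟩
  · exact Submodule.zero_mem _

theorem span_tt {d : ℕ} (hd : 0 < d) (i : ℕ) :
    Submodule.span K (Set.range fun m : {m : Fin n →₀ ℕ // wt m = i} => tt K d m.1) =
    Submodule.span K
      (Set.range fun m : {m : Fin n →₀ ℕ // wt m = i} => eps K n (monomial m.1 1)) := by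
  classical
  have := Fintype.ofFinite {m : Fin n →₀ ℕ // wt m = i}
  have hfin : FiniteDimensional K (Submodule.span K
      (Set.range fun m : {m : Fin n →₀ ℕ // wt m = i} => eps K n (monomial m.1 1))) :=
    FiniteDimensional.span_of_finite K (Set.finite_range _)
  refine Submodule.eq_of_le_of_finrank_le ?_ ?_
  · rw [Submodule.span_le]
    rintro _ ⟨m, rfl⟩
    obtain ⟨s, hs⟩ := tt_mem (K := K) d m.1
    have h := tt_hom (K := K) d m.1
    rw [m.2] at h
    change tt K d m.1 ∈ _
    rw [← hs] at h ⊢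
    exact mem_span_eps s h
  · have hli : LinearIndependent K (fun m : {m : Fin n →₀ ℕ // wt m = i} => tt K d m.1) :=
      (linearIndependent_tt hd).comp _ Subtype.val_injective
    rw [finrank_span_eq_card hli]
    exact finrank_range_le_card _

theorem mem_span_tt {d : ℕ} (hd : 0 < d) {i : ℕ} (s : MvPolynomial (Fin n) K)
    (h : (eps K n s).IsHomogeneous i) :
    eps K n s ∈ Submodule.span K
      (Set.range fun m : {m : Fin n →₀ ℕ // wt m = i} => tt K d m.1) := by
  rw [span_tt hd]
  exact mem_span_eps s h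

theorem mem_span_tt_all {d : ℕ} (hd : 0 < d) (s : MvPolynomial (Fin n) K) :
    eps K n s ∈ Submodule.span K (Set.range fun m : Fin n →₀ ℕ => tt K d m) := by
  have h2 : eps K n s = ∑ m ∈ s.support, MvPolynomial.coeff m s • eps K n (monomial m 1) := by
    conv_lhs => rw [s.as_sum]
    rw [map_sum]
    refine Finset.sum_congr rfl fun m _ => ?_
    rw [← map_smul, smul_monomial, smul_eq_mul, mul_one]
  rw [h2]
  refine Submodule.sum_mem _ fun m _ => Submodule.smul_mem _ _ ?_
  refine Submodule.span_mono ?_ (mem_span_tt hd (monomial m 1) (eps_monomial_hom m))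
  rintro _ ⟨m', rfl⟩
  exact ⟨m'.1, rfl⟩

theorem ehat_mul_tt (d : ℕ) (hd : 0 < d) (k : Fin n) (m : Fin n →₀ ℕ) :
    expand d (esymm (Fin n) K (k + 1)) * tt K d m = tt K d (m + d • Finsupp.single k 1) := by
  have h1 : modd d (m + d • Finsupp.single k 1) = modd d m := by
    ext i
    simp only [modd, Finsupp.mapRange_apply, Finsupp.add_apply, Finsupp.smul_apply, smul_eq_mul,
      Nat.add_mul_mod_self_left]
  have h2 : divd d (m + d • Finsupp.single k 1) = divd d m + Finsupp.single k 1 := by
    ext i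
    simp only [divd, Finsupp.mapRange_apply, Finsupp.add_apply, Finsupp.smul_apply, smul_eq_mul]
    rw [Nat.add_mul_div_left _ _ hd]
  have h3 : eps K n (monomial (divd d m + Finsupp.single k 1) 1) =
      eps K n (monomial (divd d m) 1) * esymm (Fin n) K (k + 1) := by
    have e : (monomial (divd d m + Finsupp.single k 1) (1 : K)) =
        monomial (divd d m) 1 * X k := by
      rw [X, monomial_mul, mul_one]
    rw [e, map_mul]
    congr 1
    rw [eps, aeval_X]
  rw [tt, tt, h1, h2, h3, map_mul]
  ring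

/-- the part of the exponents which are not reduced -/
noncomputable def JJ (K : Type u) [Field K] (n d : ℕ) : Submodule K (MvPolynomial (Fin n) K) :=
  Submodule.span K ((fun m : Fin n →₀ ℕ => tt K d m) '' {m | ∃ i, d ≤ m i})

theorem ehat_mul_mem {d : ℕ} (hd : 0 < d) (k : Fin n) (s : MvPolynomial (Fin n) K) :
    expand d (esymm (Fin n) K (k + 1)) * eps K n s ∈ JJ K n d := by
  have h := mem_span_tt_all hd s
  generalize eps K n s = y at h
  induction h using Submodule.span_induction with
  | mem x hx =>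
    obtain ⟨m, rfl⟩ := hx
    change expand d (esymm (Fin n) K (k + 1)) * tt K d m ∈ _
    rw [ehat_mul_tt d hd]
    refine Submodule.subset_span ⟨_, ⟨k, ?_⟩, rfl⟩
    simp
  | zero => rw [mul_zero]; exact Submodule.zero_mem _
  | add x y _ _ hx hy => rw [mul_add]; exact Submodule.add_mem _ hx hy
  | smul a x _ hx => rw [mul_smul_comm]; exact Submodule.smul_mem _ _ hx

theorem mul_mem_JJ {d : ℕ} (hd : 0 < d) (s : MvPolynomial (Fin n) K) {x : MvPolynomial (Fin n) K}
    (hx : x ∈ JJ K n d) : eps K n s * x ∈ JJ K n d := by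
  rw [JJ] at hx
  induction hx using Submodule.span_induction with
  | mem x hx =>
    obtain ⟨m, ⟨i, hi⟩, rfl⟩ := hx
    beta_reduce
    have hm : m = (m - d • Finsupp.single i 1) + d • Finsupp.single i 1 := by
      ext k
      by_cases hk : k = i
      · subst hk
        simp
        omega
      · simp [Ne.symm hk]
    rw [hm, ← ehat_mul_tt d hd i, mul_left_comm]
    obtain ⟨s', hs'⟩ := tt_mem (K := K) d (m - d • Finsupp.single i 1)
    rw [← hs', ← map_mul]
    exact ehat_mul_mem hd i _
  | zero => rw [mul_zero]; exact Submodule.zero_mem _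
  | add x y _ _ hx hy => rw [mul_add]; exact Submodule.add_mem _ hx hy
  | smul a x _ hx => rw [mul_smul_comm]; exact Submodule.smul_mem _ _ hx

theorem disjoint_JJ {d : ℕ} (hd : 0 < d) {x : MvPolynomial (Fin n) K}
    (h1 : x ∈ Submodule.span K ((fun m : Fin n →₀ ℕ => tt K d m) '' {m | ∀ i, m i < d}))
    (h2 : x ∈ JJ K n d) : x = 0 := by
  have hdis : Disjoint {m : Fin n →₀ ℕ | ∀ i, m i < d} {m | ∃ i, d ≤ m i} := by
    rw [Set.disjoint_left]
    rintro m h1 ⟨i, hi⟩
    exact absurd (h1 i) (not_lt.2 hi)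
  exact (Submodule.disjoint_def.1 ((linearIndependent_tt (K := K) hd).disjoint_span_image hdis)) x h1 h2

end Pool.Agent.H208.SLP
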