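import Mathlib
import Pool.Agent.H208.SLP.Span
import Pool.Agent.H208.SLP.Defs

set_option autoImplicit false

universe u

namespace Pool.Agent.H208.SLP

open MvPolynomial Finset

variable {K : Type u} [Field K] {n : ℕ}

theorem mem_BB {p : MvPolynomial (Fin n) K} : p ∈ BB K n ↔ ∃ s, eps K n s = p := by
  rw [BB, Algebra.adjoin_range_eq_range_aeval]
  exact Iff.rfl

theorem tt_mem_BB (d : ℕ) (m : Fin n →₀ ℕ) : tt K d m ∈ BB K n := mem_BB.2 (tt_mem d m)

/-- `tt` as an element of `B` -/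
noncomputable def tb (K : Type u) [Field K] {n : ℕ} (d : ℕ) (m : Fin n →₀ ℕ) : BB K n :=
  ⟨tt K d m, tt_mem_BB d m⟩

/-- class of `tt` -/
noncomputable def qq (K : Type u) [Field K] {n : ℕ} (d : ℕ) (m : Fin n →₀ ℕ) : AA K n d :=
  Ideal.Quotient.mk (II K n d) (tb K d m)

theorem mem_JJ_of_mem_II {d : ℕ} (hd : 0 < d) {b : BB K n} (hb : b ∈ II K n d) :
    (b : MvPolynomial (Fin n) K) ∈ JJ K n d := by
  rw [II] at hb
  induction hb using Submodule.span_induction with
  | mem x hx =>
    obtain ⟨i, hi⟩ := hx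
    rw [hi]
    have := ehat_mul_mem (K := K) hd i 1
    rwa [map_one, mul_one] at this
  | zero => exact Submodule.zero_mem _
  | add x y _ _ hx hy => exact Submodule.add_mem _ hx hy
  | smul a x _ hx =>
    obtain ⟨s, hs⟩ := mem_BB.1 a.2
    change (a : MvPolynomial (Fin n) K) * x ∈ _
    rw [← hs]
    exact mul_mem_JJ hd s hx

theorem tb_mem_II {d : ℕ} (hd : 0 < d) {m : Fin n →₀ ℕ} {i : Fin n} (hi : d ≤ m i) :
    tb K d m ∈ II K n d := by
  have hm : m = (m - d • Finsupp.single i 1) + d • Finsupp.single i 1 := by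
    ext k
    by_cases hk : k = i
    · subst hk
      simp
      omega
    · simp [Ne.symm hk]
  have hE : expand d (esymm (Fin n) K (i + 1)) ∈ BB K n := by
    obtain ⟨s, hs⟩ := expand_eps (K := K) d (X i)
    rw [mem_BB]
    refine ⟨s, ?_⟩
    rw [hs, eps, aeval_X]
  have h1 : tb K d m = ⟨expand d (esymm (Fin n) K (i + 1)), hE⟩ *
      tb K d (m - d • Finsupp.single i 1) := by
    apply Subtype.ext
    change tt K d m = _ * tt K d _
    rw [ehat_mul_tt d hd i, ← hm]
  rw [h1]
  refine Ideal.mul_mem_right _ _ (Ideal.subset_span ⟨i, rfl⟩)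

theorem qq_eq_zero {d : ℕ} (hd : 0 < d) {m : Fin n →₀ ℕ} {i : Fin n} (hi : d ≤ m i) :
    qq K d m = 0 := Ideal.Quotient.eq_zero_iff_mem.2 (tb_mem_II hd hi)

/-- reduced exponents of weight `i` -/
abbrev Qi (n d i : ℕ) : Type := {a : Fin n →₀ ℕ // (∀ k, a k < d) ∧ wt a = i}

instance (n d i : ℕ) : Finite (Qi n d i) := (finite_wt i).subset fun _ h => h.2

theorem linearIndependent_qq {d : ℕ} (hd : 0 < d) (i : ℕ) :
    LinearIndependent K (fun a : Qi n d i => qq K d a.1) := by
  classical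
  have := Fintype.ofFinite (Qi n d i)
  rw [Fintype.linearIndependent_iff]
  intro g hg a
  have h1 : Ideal.Quotient.mk (II K n d) (∑ a : Qi n d i, g a • tb K d a.1) = 0 := by
    rw [← hg, map_sum]
    rfl
  have h2 := mem_JJ_of_mem_II hd (Ideal.Quotient.eq_zero_iff_mem.1 h1)
  have h3 : ((∑ a : Qi n d i, g a • tb K d a.1 : BB K n) : MvPolynomial (Fin n) K) =
      ∑ a : Qi n d i, g a • tt K d a.1 := by
    rw [AddSubmonoidClass.coe_finsetSum]
    rfl
  rw [h3] at h2
  have h4 : ∑ a : Qi n d i, g a • tt K d a.1 = 0 := by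
    refine disjoint_JJ hd ?_ h2
    refine Submodule.sum_mem _ fun a _ => Submodule.smul_mem _ _ (Submodule.subset_span ?_)
    exact ⟨a.1, a.2.1, rfl⟩
  have hli : LinearIndependent K (fun a : Qi n d i => tt K d a.1) :=
    (linearIndependent_tt hd).comp _ Subtype.val_injective
  exact Fintype.linearIndependent_iff.1 hli g h4 a

theorem qq_ne_zero {d : ℕ} (hd : 0 < d) {a : Fin n →₀ ℕ} (ha : ∀ k, a k < d) :
    qq K d a ≠ 0 := by
  intro h
  have h2 : ∀ x : Qi n d (wt a), qq K d x.1 ≠ 0 := fun x =>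
    (linearIndependent_qq (K := K) hd (wt a)).ne_zero x
  exact h2 ⟨a, ha, rfl⟩ h

theorem mem_piece {d j : ℕ} {x : AA K n d} : x ∈ piece K n d j ↔
    ∃ b : BB K n, (b : MvPolynomial (Fin n) K).IsHomogeneous j ∧
      Ideal.Quotient.mk (II K n d) b = x := by
  rw [piece, Submodule.mem_map]
  exact Iff.rfl

theorem piece_eq {d : ℕ} (hd : 0 < d) (i : ℕ) :
    piece K n d i = Submodule.span K (Set.range fun a : Qi n d i => qq K d a.1) := by
  classical
  have := Fintype.ofFinite {m : Fin n →₀ ℕ // wt m = i}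
  apply le_antisymm
  · intro x hx
    obtain ⟨b, hb, rfl⟩ := mem_piece.1 hx
    obtain ⟨s, hs⟩ := mem_BB.1 b.2
    have h1 := mem_span_tt hd s (i := i) (by rw [hs]; exact hb)
    rw [hs, Submodule.mem_span_range_iff_exists_fun] at h1
    obtain ⟨c, hc⟩ := h1
    have h2 : b = ∑ m : {m : Fin n →₀ ℕ // wt m = i}, c m • tb K d m.1 := by
      apply Subtype.ext
      rw [← hc, AddSubmonoidClass.coe_finsetSum]
      rfl
    rw [h2, map_sum]
    refine Submodule.sum_mem _ fun m _ => ?_
    have h3 : Ideal.Quotient.mk (II K n d) (c m • tb K d m.1) = c m • qq K d m.1 := rfl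
    rw [h3]
    refine Submodule.smul_mem _ _ ?_
    by_cases hm : ∀ k, m.1 k < d
    · exact Submodule.subset_span ⟨⟨m.1, hm, m.2⟩, rfl⟩
    · push Not at hm
      obtain ⟨k, hk⟩ := hm
      rw [qq_eq_zero hd hk]
      exact Submodule.zero_mem _
  · rw [Submodule.span_le]
    rintro _ ⟨a, rfl⟩
    have h := tt_hom (K := K) d a.1
    rw [a.2.2] at h
    exact mem_piece.2 ⟨tb K d a.1, h, rfl⟩

instance {d : ℕ} [NeZero d] (i : ℕ) : FiniteDimensional K (piece K n d i) := by
  rw [piece_eq (Nat.pos_of_ne_zero (NeZero.ne d)) i]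
  exact FiniteDimensional.span_of_finite K (Set.finite_range _)

theorem finrank_piece {d : ℕ} (hd : 0 < d) (i : ℕ) :
    Module.finrank K (piece K n d i) = Nat.card (Qi n d i) := by
  classical
  have := Fintype.ofFinite (Qi n d i)
  rw [piece_eq hd i, finrank_span_eq_card (linearIndependent_qq hd i), Nat.card_eq_fintype_card]

/-- complementary exponents -/
noncomputable def compl (n d : ℕ) (a : Fin n →₀ ℕ) : Fin n →₀ ℕ :=
  Finsupp.equivFunOnFinite.symm (fun k => d - 1 - a k)

theorem wt_compl {d : ℕ} {a : Fin n →₀ ℕ} (ha : ∀ k, a k < d) :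
    wt a + wt (compl n d a) = (d - 1) * ∑ i : Fin n, ((i : ℕ) + 1) := by
  rw [wt, wt, ← Finset.sum_add_distrib, Finset.mul_sum]
  refine Finset.sum_congr rfl fun i _ => ?_
  have h : a i + (d - 1 - a i) = d - 1 := by have := ha i; omega
  change ((i : ℕ) + 1) * a i + ((i : ℕ) + 1) * (d - 1 - a i) = _
  rw [← mul_add, h, mul_comm]

theorem card_Qi {d : ℕ} (hd : 0 < d) {i j : ℕ}
    (hij : i + j = (d - 1) * ∑ i : Fin n, ((i : ℕ) + 1)) :
    Nat.card (Qi n d i) = Nat.card (Qi n d j) := by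
  have hc : ∀ a : Fin n →₀ ℕ, (∀ k, a k < d) → compl n d (compl n d a) = a := by
    intro a ha
    ext k
    change d - 1 - (d - 1 - a k) = a k
    have := ha k
    omega
  have hlt : ∀ a : Fin n →₀ ℕ, ∀ k, compl n d a k < d := by
    intro a k
    change d - 1 - a k < d
    omega
  refine Nat.card_congr
    { toFun := fun a => ⟨compl n d a.1, hlt _, ?_⟩
      invFun := fun a => ⟨compl n d a.1, hlt _, ?_⟩
      left_inv := fun a => Subtype.ext (hc _ a.2.1)
      right_inv := fun a => Subtype.ext (hc _ a.2.1) }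
  · have h1 := wt_compl a.2.1
    have h2 := a.2.2
    omega
  · have h1 := wt_compl a.2.1
    have h2 := a.2.2
    omega

/-- an injective multiplication between pieces of complementary degrees is surjective -/
theorem surj_of_inj {d : ℕ} (hd : 0 < d) {j k : ℕ}
    (hjk : j + (j + k) = (d - 1) * ∑ i : Fin n, ((i : ℕ) + 1)) (x : AA K n d)
    (hx : ∀ a ∈ piece K n d j, x * a ∈ piece K n d (j + k))
    (hinj : ∀ a ∈ piece K n d j, x * a = 0 → a = 0) :
    ∀ b ∈ piece K n d (j + k), ∃ a ∈ piece K n d j, x * a = b := by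
  have : NeZero d := ⟨hd.ne'⟩
  let f : piece K n d j →ₗ[K] piece K n d (j + k) :=
    (LinearMap.mulLeft K x).restrict hx
  have hf : Function.Injective f := by
    rw [injective_iff_map_eq_zero]
    intro a ha
    apply Subtype.ext
    exact hinj a.1 a.2 (congrArg Subtype.val ha)
  have hdim : Module.finrank K (piece K n d j) = Module.finrank K (piece K n d (j + k)) := by
    rw [finrank_piece hd, finrank_piece hd]
    exact card_Qi hd hjk
  have hs := (LinearMap.injective_iff_surjective_of_finrank_eq_finrank hdim).1 hf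
  intro b hb
  obtain ⟨a, ha⟩ := hs ⟨b, hb⟩
  exact ⟨a.1, a.2, congrArg Subtype.val ha⟩

end Pool.Agent.H208.SLP
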