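import Mathlib

set_option autoImplicit false

/-!
# Sparse polynomials and the polynomials `x^k + y^k` in `x + y = 1`, `xy = z`
-/

universe u

namespace Pool.Agent.H208.SLP

open Polynomial

/-- `L k (xy) = x^k + y^k` if `x + y = 1` -/
noncomputable def LL (A : Type u) [CommRing A] : ℕ → A[X]
  | 0 => 2
  | 1 => 1
  | (k + 2) => LL A (k + 1) - X * LL A k

theorem LL_map {A : Type u} [CommRing A] {B : Type*} [CommRing B] (f : A →+* B) (k : ℕ) :
    (LL A k).map f = LL B k := by
  induction k using Nat.strong_induction_on with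
  | _ k ih =>
    match k, ih with
    | 0, _ => simp [LL]
    | 1, _ => simp [LL]
    | (k + 2), ih =>
      rw [LL, LL, Polynomial.map_sub, Polynomial.map_mul, Polynomial.map_X, ih (k + 1) (by omega),
        ih k (by omega)]

theorem LL_eval {φ : ℝ} (h : Real.cos φ ≠ 0) (k : ℕ) :
    (LL ℝ k).eval (1 / (4 * Real.cos φ ^ 2)) = 2 * Real.cos (k * φ) / (2 * Real.cos φ) ^ k := by
  induction k using Nat.strong_induction_on with
  | _ k ih =>
    match k, ih with
    | 0, _ => simp [LL]
    | 1, _ =>
      simp only [LL, eval_one, Nat.cast_one, one_mul, pow_one]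
      field_simp
    | (k + 2), ih =>
      rw [LL, eval_sub, eval_mul, eval_X, ih (k + 1) (by omega), ih k (by omega)]
      have e : Real.cos (((k + 2 : ℕ) : ℝ) * φ) =
          2 * Real.cos φ * Real.cos (((k + 1 : ℕ) : ℝ) * φ) - Real.cos ((k : ℝ) * φ) := by
        have e1 : ((k + 2 : ℕ) : ℝ) * φ = ((k + 1 : ℕ) : ℝ) * φ + φ := by push_cast; ring
        have e2 : (k : ℝ) * φ = ((k + 1 : ℕ) : ℝ) * φ - φ := by push_cast; ring
        rw [e1, e2, Real.cos_add, Real.cos_sub]
        ring
      rw [e]
      field_simp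
      ring

theorem signVariations_lt (p : ℝ[X]) (hp : p ≠ 0) : p.signVariations < p.support.card := by
  induction hn : p.support.card using Nat.strong_induction_on generalizing p with
  | _ n ih =>
    have hpos : 0 < p.support.card := by
      rw [Finset.card_pos, Polynomial.nonempty_support_iff]
      exact hp
    by_cases he : p.eraseLead = 0
    · have h1 := signVariations_le_eraseLead_succ (P := p)
      have h2 : p = monomial p.natDegree p.leadingCoeff := by
        have := p.eraseLead_add_monomial_natDegree_leadingCoeff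
        rw [he, zero_add] at this
        exact this.symm
      rw [h2, signVariations_monomial]
      omega
    · have hc : p.eraseLead.support.card = n - 1 := by rw [card_support_eraseLead, hn]
      have h1 := signVariations_le_eraseLead_succ (P := p)
      have h2 := ih (n - 1) (by omega) p.eraseLead he (by rw [hc])
      omega

theorem card_lt_support {p : ℝ[X]} (hp : p ≠ 0) (s : Finset ℝ) (hs : ∀ x ∈ s, 0 < x ∧ p.eval x = 0) :
    s.card < p.support.card := by
  classical
  refine lt_of_le_of_lt ?_ (signVariations_lt p hp)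
  refine le_trans ?_ (roots_countP_pos_le_signVariations p)
  rw [Multiset.countP_eq_card_filter]
  have hsub : s.val ≤ p.roots.filter (0 < ·) := by
    rw [Multiset.le_iff_subset s.nodup]
    intro x hx
    rw [Multiset.mem_filter, mem_roots hp]
    exact ⟨(hs x hx).2, (hs x hx).1⟩
  exact Multiset.card_le_card hsub

theorem sparse_real {m : ℕ} {F H : ℝ[X]} (hF : F = LL ℝ (2 * m) * H)
    (hc : F.support.card ≤ m) : F = 0 := by
  classical
  by_contra hne
  have hm : 0 < m := by
    have : 0 < F.support.card := by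
      rw [Finset.card_pos, Polynomial.nonempty_support_iff]
      exact hne
    omega
  have hm' : (0 : ℝ) < m := by exact_mod_cast hm
  let φ : ℕ → ℝ := fun l => (2 * l + 1) * Real.pi / (4 * m)
  have hφ0 : ∀ l, 0 < φ l := fun l => by
    have := Real.pi_pos
    positivity
  have hφ1 : ∀ l < m, φ l < Real.pi / 2 := by
    intro l hl
    have h1 : ((l : ℝ) + 1) ≤ m := by exact_mod_cast hl
    change (2 * (l : ℝ) + 1) * Real.pi / (4 * m) < Real.pi / 2
    rw [div_lt_div_iff₀ (by positivity) (by norm_num)]
    have := Real.pi_pos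
    nlinarith
  have hcos : ∀ l < m, 0 < Real.cos (φ l) := fun l hl =>
    Real.cos_pos_of_mem_Ioo ⟨by have := hφ0 l; have := Real.pi_pos; linarith, hφ1 l hl⟩
  let z : ℕ → ℝ := fun l => 1 / (4 * Real.cos (φ l) ^ 2)
  have hinj : Set.InjOn z (Finset.range m) := by
    intro a ha b hb hab
    have ha' : a < m := by simpa using ha
    have hb' : b < m := by simpa using hb
    have h1 : Real.cos (φ a) ^ 2 = Real.cos (φ b) ^ 2 := by
      have h2 : 1 / (4 * Real.cos (φ a) ^ 2) = 1 / (4 * Real.cos (φ b) ^ 2) := hab
      have := hcos a ha'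
      have := hcos b hb'
      rw [div_eq_div_iff (by positivity) (by positivity)] at h2
      linarith
    have h3 : Real.cos (φ a) = Real.cos (φ b) := by
      have := hcos a ha'
      have := hcos b hb'
      rwa [sq_eq_sq₀ (by positivity) (by positivity)] at h1
    have h4 : φ a = φ b := by
      refine Real.injOn_cos ⟨(hφ0 a).le, ?_⟩ ⟨(hφ0 b).le, ?_⟩ h3
      · have := hφ1 a ha'; have := Real.pi_pos; linarith
      · have := hφ1 b hb'; have := Real.pi_pos; linarith
    have h5 : (2 * (a : ℝ) + 1) * Real.pi / (4 * m) = (2 * (b : ℝ) + 1) * Real.pi / (4 * m) := h4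
    rw [div_left_inj' (by positivity), mul_left_inj' Real.pi_ne_zero] at h5
    have h6 : (a : ℝ) = b := by linarith
    exact_mod_cast h6
  have hcard : ((Finset.range m).image z).card = m := by
    rw [Finset.card_image_of_injOn hinj, Finset.card_range]
  have h := card_lt_support hne ((Finset.range m).image z) ?_
  · rw [hcard] at h
    omega
  · intro x hx
    obtain ⟨l, hl, rfl⟩ := Finset.mem_image.1 hx
    have hl' : l < m := by simpa using hl
    have hcl := hcos l hl'
    refine ⟨by positivity, ?_⟩
    rw [hF, eval_mul]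
    have : (LL ℝ (2 * m)).eval (z l) = 0 := by
      change (LL ℝ (2 * m)).eval (1 / (4 * Real.cos (φ l) ^ 2)) = 0
      rw [LL_eval hcl.ne']
      have e : Real.cos (((2 * m : ℕ) : ℝ) * φ l) = 0 := by
        rw [Real.cos_eq_zero_iff]
        refine ⟨l, ?_⟩
        change ((2 * m : ℕ) : ℝ) * ((2 * (l : ℝ) + 1) * Real.pi / (4 * m)) = _
        push_cast
        field_simp
        ring
      rw [e, mul_zero, zero_div]
    rw [this, zero_mul]

theorem sparse_rat {m : ℕ} {F H : ℚ[X]} (hF : F = LL ℚ (2 * m) * H)
    (hc : F.support.card ≤ m) : F = 0 := by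
  have h1 : F.map (algebraMap ℚ ℝ) = LL ℝ (2 * m) * H.map (algebraMap ℚ ℝ) := by
    rw [hF, Polynomial.map_mul, LL_map]
  have h2 : (F.map (algebraMap ℚ ℝ)).support.card ≤ m :=
    le_trans (Finset.card_le_card (Polynomial.support_map_subset _ _)) hc
  have h3 := sparse_real h1 h2
  rwa [Polynomial.map_eq_zero] at h3

/-- apply a linear functional to the coefficients -/
noncomputable def lamP {K : Type u} [Field K] [Algebra ℚ K] (f : K →ₗ[ℚ] ℚ) (F : K[X]) : ℚ[X] :=
  ∑ k ∈ F.support, monomial k (f (F.coeff k))

theorem lamP_coeff {K : Type u} [Field K] [Algebra ℚ K] (f : K →ₗ[ℚ] ℚ) (F : K[X]) (k : ℕ) :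
    (lamP f F).coeff k = f (F.coeff k) := by
  classical
  rw [lamP, finsetSum_coeff]
  simp only [coeff_monomial]
  rw [Finset.sum_ite_eq']
  split_ifs with h
  · rfl
  · rw [Polynomial.notMem_support_iff.1 h, map_zero]

theorem lamP_mul {K : Type u} [Field K] [Algebra ℚ K] (f : K →ₗ[ℚ] ℚ) (p : ℚ[X]) (H : K[X]) :
    lamP f (p.map (algebraMap ℚ K) * H) = p * lamP f H := by
  ext k
  rw [lamP_coeff, coeff_mul, coeff_mul, map_sum]
  refine Finset.sum_congr rfl fun x _ => ?_
  rw [lamP_coeff, coeff_map, ← Algebra.smul_def, map_smul, smul_eq_mul]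

theorem sparse {K : Type u} [Field K] [CharZero K] {m : ℕ} {F H : K[X]}
    (hF : F = LL K (2 * m) * H) (hc : F.support.card ≤ m) : F = 0 := by
  let _ : Algebra ℚ K := DivisionRing.toRatAlgebra
  have hall : ∀ f : K →ₗ[ℚ] ℚ, lamP f F = 0 := by
    intro f
    refine sparse_rat (m := m) (H := lamP f H) ?_ ?_
    · rw [hF, ← LL_map (algebraMap ℚ K), lamP_mul]
    · refine le_trans (Finset.card_le_card ?_) hc
      intro k hk
      rw [mem_support_iff, lamP_coeff] at hk
      rw [mem_support_iff]
      intro h0
      rw [h0, map_zero] at hk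
      exact hk rfl
  ext k
  rw [coeff_zero]
  rw [← Module.forall_dual_apply_eq_zero_iff ℚ]
  intro f
  have := congrArg (fun p => Polynomial.coeff p k) (hall f)
  beta_reduce at this
  rwa [lamP_coeff, coeff_zero] at this

end Pool.Agent.H208.SLP
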