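import Mathlib
import Pool.Agent.H208.SLP.Quot
import Pool.Agent.H208.SLP.Sparse

set_option autoImplicit false

/-!
# The case `n = 2`, `d` even
-/

universe u

namespace Pool.Agent.H208.SLP

open MvPolynomial Finset

variable {K : Type u} [Field K]

theorem esymm_two_one : esymm (Fin 2) K 1 = X 0 + X 1 := by
  rw [esymm_one, Fin.sum_univ_two]

theorem esymm_two_two : esymm (Fin 2) K 2 = X 0 * X 1 := by
  have h : (Finset.univ : Finset (Fin 2)).powersetCard 2 = {Finset.univ} := by
    have := Finset.powersetCard_self (Finset.univ : Finset (Fin 2))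
    rwa [Finset.card_fin] at this
  rw [esymm, h, Finset.sum_singleton, Fin.prod_univ_two]

/-- `x^k + y^k` in terms of `x + y` and `xy` -/
noncomputable def Lam (K : Type u) [Field K] : ℕ → MvPolynomial (Fin 2) K
  | 0 => 2
  | 1 => X 0
  | (k + 2) => X 0 * Lam K (k + 1) - X 1 * Lam K k

theorem eps_X0 : eps K 2 (X 0) = X 0 + X 1 := by
  rw [eps, aeval_X]
  exact esymm_two_one

theorem eps_X1 : eps K 2 (X 1) = X 0 * X 1 := by
  rw [eps, aeval_X]
  exact esymm_two_two

theorem eps_Lam (k : ℕ) : eps K 2 (Lam K k) = X 0 ^ k + X 1 ^ k := by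
  induction k using Nat.strong_induction_on with
  | _ k ih =>
    match k, ih with
    | 0, _ =>
      rw [Lam, map_ofNat]
      norm_num
    | 1, _ => rw [Lam, eps_X0, pow_one, pow_one]
    | (k + 2), ih =>
      rw [Lam, map_sub, map_mul, map_mul, eps_X0, eps_X1, ih (k + 1) (by omega), ih k (by omega)]
      ring

/-- dehomogenisation -/
noncomputable def tau (K : Type u) [Field K] : MvPolynomial (Fin 2) K →ₐ[K] Polynomial (Polynomial K) :=
  aeval ![Polynomial.X, Polynomial.C Polynomial.X * Polynomial.X ^ 2]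

theorem tau_X0 : tau K (X 0) = Polynomial.X := by
  rw [tau, aeval_X]; rfl

theorem tau_X1 : tau K (X 1) = Polynomial.C Polynomial.X * Polynomial.X ^ 2 := by
  rw [tau, aeval_X]; rfl

theorem tau_Lam (k : ℕ) : tau K (Lam K k) = Polynomial.C (LL K k) * Polynomial.X ^ k := by
  induction k using Nat.strong_induction_on with
  | _ k ih =>
    match k, ih with
    | 0, _ => rw [Lam, map_ofNat, LL, map_ofNat, pow_zero, mul_one]
    | 1, _ => rw [Lam, tau_X0, LL, map_one, pow_one, one_mul]
    | (k + 2), ih =>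
      rw [Lam, map_sub, map_mul, map_mul, tau_X0, tau_X1, ih (k + 1) (by omega), ih k (by omega), LL,
        map_sub, map_mul]
      ring

theorem natDegree_tau (s : MvPolynomial (Fin 2) K) (t : ℕ) :
    ((tau K s).coeff t).natDegree ≤ t / 2 := by
  induction s using MvPolynomial.induction_on generalizing t with
  | C a =>
    have h : tau K (C a) = Polynomial.C (Polynomial.C a) := by
      rw [← algebraMap_eq, AlgHom.commutes]
      rfl
    rw [h, Polynomial.coeff_C]
    split_ifs
    · simp
    · simp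
  | add p q hp hq =>
    rw [map_add, Polynomial.coeff_add]
    exact (Polynomial.natDegree_add_le _ _).trans (max_le (hp t) (hq t))
  | mul_X p i hp =>
    rw [map_mul]
    fin_cases i
    · change ((tau K p * tau K (X 0)).coeff t).natDegree ≤ t / 2
      rw [tau_X0]
      rcases Nat.eq_zero_or_pos t with h | h
      · subst h
        rw [Polynomial.mul_coeff_zero, Polynomial.coeff_X_zero, mul_zero]
        simp
      · obtain ⟨t', rfl⟩ : ∃ t', t = t' + 1 := ⟨t - 1, by omega⟩
        rw [Polynomial.coeff_mul_X]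
        exact (hp t').trans (by omega)
    · change ((tau K p * tau K (X 1)).coeff t).natDegree ≤ t / 2
      rw [tau_X1, ← mul_assoc, Polynomial.coeff_mul_X_pow']
      split_ifs with h
      · rw [Polynomial.coeff_mul_C]
        refine (Polynomial.natDegree_mul_le).trans ?_
        have h1 := hp (t - 2)
        have h2 : (Polynomial.X : Polynomial K).natDegree ≤ 1 := Polynomial.natDegree_X_le
        omega
      · simp

theorem mem_II_two {d : ℕ} {b : BB K 2} (hb : b ∈ II K 2 d) :
    ∃ α β : MvPolynomial (Fin 2) K, (b : MvPolynomial (Fin 2) K) =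
      eps K 2 (α * Lam K d + β * X 1 ^ d) := by
  rw [II] at hb
  induction hb using Submodule.span_induction with
  | mem x hx =>
    obtain ⟨i, hi⟩ := hx
    fin_cases i
    · refine ⟨1, 0, ?_⟩
      rw [hi]
      change expand d (esymm (Fin 2) K 1) = _
      rw [esymm_two_one, one_mul, zero_mul, add_zero, eps_Lam, map_add, expand_X, expand_X]
    · refine ⟨0, 1, ?_⟩
      rw [hi]
      change expand d (esymm (Fin 2) K 2) = _
      rw [esymm_two_two, one_mul, zero_mul, zero_add, map_pow, eps_X1, map_mul, expand_X, expand_X,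
        mul_pow]
  | zero => exact ⟨0, 0, by simp⟩
  | add x y _ _ hx hy =>
    obtain ⟨α, β, e⟩ := hx
    obtain ⟨α', β', e'⟩ := hy
    refine ⟨α + α', β + β', ?_⟩
    change (x : MvPolynomial (Fin 2) K) + y = _
    rw [e, e', ← map_add]
    congr 1
    ring
  | smul a x _ hx =>
    obtain ⟨α, β, e⟩ := hx
    obtain ⟨s, hs⟩ := mem_BB.1 a.2
    refine ⟨s * α, s * β, ?_⟩
    change (a : MvPolynomial (Fin 2) K) * x = _
    rw [e, ← hs, ← map_mul]
    congr 1
    ring

theorem wt_two (q : Fin 2 →₀ ℕ) : wt q = q 0 + 2 * q 1 := by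
  rw [wt, Fin.sum_univ_two]
  simp

theorem tau_monomial (q : Fin 2 →₀ ℕ) :
    tau K (monomial q 1) = Polynomial.C (Polynomial.X ^ (q 1)) * Polynomial.X ^ (wt q) := by
  have h : (monomial q (1 : K)) = X 0 ^ (q 0) * X 1 ^ (q 1) := by
    rw [monomial_eq, map_one, one_mul, Finsupp.prod_fintype _ _ (fun i => pow_zero _),
      Fin.prod_univ_two]
  rw [h, map_mul, map_pow, map_pow, tau_X0, tau_X1, wt_two, map_pow]
  ring

/-- the crucial injectivity for `n = 2`, `d = 2m` -/
theorem inj_two [CharZero K] {m j : ℕ} (hm : 1 ≤ m) (hj : 2 * j < 3 * (2 * m - 1))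
    [Fintype (Qi 2 (2 * m) j)] (g : Qi 2 (2 * m) j → K) (α β : MvPolynomial (Fin 2) K)
    (h : X 0 ^ (3 * (2 * m - 1) - 2 * j) * ∑ q : Qi 2 (2 * m) j, g q • monomial q.1 (1 : K) =
      α * Lam K (2 * m) + β * X 1 ^ (2 * m)) : ∀ q, g q = 0 := by
  classical
  set k := 3 * (2 * m - 1) - 2 * j with hk
  set D := k + j with hD
  set G : Polynomial K := ∑ q : Qi 2 (2 * m) j, Polynomial.C (g q) * Polynomial.X ^ (q.1 1) with hG
  -- the left side
  have hL : (tau K (X 0 ^ k * ∑ q : Qi 2 (2 * m) j, g q • monomial q.1 (1 : K))).coeff D = G := by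
    have e : tau K (X 0 ^ k * ∑ q : Qi 2 (2 * m) j, g q • monomial q.1 (1 : K)) =
        Polynomial.C G * Polynomial.X ^ D := by
      rw [map_mul, map_pow, tau_X0, map_sum, hG, map_sum, Finset.sum_mul, Finset.mul_sum]
      refine Finset.sum_congr rfl fun q _ => ?_
      rw [map_smul, tau_monomial, q.2.2, hD, pow_add, Algebra.smul_def]
      have e2 : algebraMap K (Polynomial (Polynomial K)) (g q) = Polynomial.C (Polynomial.C (g q)) :=
        rfl
      rw [e2, map_mul]
      ring
    rw [e, Polynomial.coeff_C_mul, Polynomial.coeff_X_pow_self, mul_one]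
  rw [h, map_add, map_mul, map_mul, map_pow, tau_Lam, tau_X1, Polynomial.coeff_add] at hL
  obtain ⟨H, hH⟩ : ∃ H, (tau K α * (Polynomial.C (LL K (2 * m)) * Polynomial.X ^ (2 * m))).coeff D =
      LL K (2 * m) * H := by
    rw [← mul_assoc, Polynomial.coeff_mul_X_pow']
    split_ifs
    · exact ⟨_, by rw [Polynomial.coeff_mul_C, mul_comm]⟩
    · exact ⟨0, by rw [mul_zero]⟩
  obtain ⟨B, hB, hBdeg, hB0⟩ : ∃ B : Polynomial K,
      (tau K β * (Polynomial.C Polynomial.X * Polynomial.X ^ 2) ^ (2 * m)).coeff D =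
        Polynomial.X ^ (2 * m) * B ∧ B.natDegree ≤ (D - 4 * m) / 2 ∧ (B ≠ 0 → 4 * m ≤ D) := by
    rw [mul_pow, ← pow_mul, ← Polynomial.C_pow, ← mul_assoc, Polynomial.coeff_mul_X_pow']
    split_ifs with hle
    · refine ⟨(tau K β).coeff (D - 2 * (2 * m)), ?_, ?_, fun _ => by omega⟩
      · rw [Polynomial.coeff_mul_C, mul_comm]
      · refine (natDegree_tau β _).trans ?_
        have : D - 2 * (2 * m) = D - 4 * m := by omega
        rw [this]
    · exact ⟨0, by rw [mul_zero], by simp, fun h => absurd rfl h⟩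
  rw [hH, hB] at hL
  -- the sparse polynomial
  have hF : G - Polynomial.X ^ (2 * m) * B = LL K (2 * m) * H := by
    rw [← hL]; ring
  set E1 := Finset.Icc ((j + 2 - 2 * m) / 2) (j / 2) with hE1
  set E2 : Finset ℕ := if 4 * m ≤ D then Finset.Icc (2 * m) (2 * m + (D - 4 * m) / 2) else ∅ with hE2
  have hsupp : (G - Polynomial.X ^ (2 * m) * B).support ⊆ E1 ∪ E2 := by
    intro e he
    rw [Polynomial.mem_support_iff, Polynomial.coeff_sub] at he
    rw [Finset.mem_union]
    by_cases h1 : G.coeff e = 0
    · right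
      rw [h1, zero_sub, neg_ne_zero, Polynomial.coeff_X_pow_mul'] at he
      split_ifs at he with hle
      · have hBne : B ≠ 0 := by
          intro h0
          rw [h0, Polynomial.coeff_zero] at he
          exact he rfl
        have h2 := Polynomial.le_natDegree_of_ne_zero he
        rw [hE2, if_pos (hB0 hBne), Finset.mem_Icc]
        omega
      · exact absurd rfl he
    · left
      rw [hG, Polynomial.finsetSum_coeff] at h1
      obtain ⟨q, _, hq⟩ := Finset.exists_ne_zero_of_sum_ne_zero h1
      rw [Polynomial.coeff_C_mul_X_pow] at hq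
      split_ifs at hq with heq
      · have hw := q.2.2
        rw [wt_two] at hw
        have h0 := q.2.1 0
        rw [hE1, Finset.mem_Icc, heq]
        omega
      · exact absurd rfl hq
  have hcard : (E1 ∪ E2).card ≤ m := by
    refine (Finset.card_union_le _ _).trans ?_
    rw [hE2]
    split_ifs with hle
    · rw [hE1, Nat.card_Icc, Nat.card_Icc]
      omega
    · rw [hE1, Nat.card_Icc, Finset.card_empty]
      omega
  have hzero := sparse hF (le_trans (Finset.card_le_card hsupp) hcard)
  intro q
  have h1 := congrArg (fun p => Polynomial.coeff p (q.1 1)) hzero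
  beta_reduce at h1
  have hq1 := q.2.1 1
  rw [Polynomial.coeff_sub, Polynomial.coeff_X_pow_mul', if_neg (by omega), sub_zero,
    Polynomial.coeff_zero, hG, Polynomial.finsetSum_coeff, Finset.sum_eq_single q] at h1
  · rw [Polynomial.coeff_C_mul_X_pow, if_pos rfl] at h1
    exact h1
  · intro q' _ hne
    rw [Polynomial.coeff_C_mul_X_pow, if_neg]
    intro heq
    apply hne
    have hw := q.2.2
    have hw' := q'.2.2
    rw [wt_two] at hw hw'
    apply Subtype.ext
    ext i
    fin_cases i
    · change q'.1 0 = q.1 0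
      omega
    · exact heq.symm
  · intro hcon
    exact absurd (Finset.mem_univ q) hcon

end Pool.Agent.H208.SLP
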