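import Mathlib
import Pool.Agent.H208.SLP.Two

set_option autoImplicit false

/-!
# Assembling the strong Lefschetz property, and consequences of non-unimodality
-/

universe u

namespace Pool.Agent.H208.SLP

open MvPolynomial Finset

variable {K : Type u} [Field K] {n : ℕ}

theorem pow_mul_mem_piece {d : ℕ} {ℓ : AA K n d} (hℓ : ℓ ∈ piece K n d 1) (j k : ℕ) {a : AA K n d}
    (ha : a ∈ piece K n d j) : ℓ ^ k * a ∈ piece K n d (j + k) := by
  obtain ⟨b, hb, rfl⟩ := mem_piece.1 hℓ
  obtain ⟨b', hb', rfl⟩ := mem_piece.1 ha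
  refine mem_piece.2 ⟨b ^ k * b', ?_, by rw [map_mul, map_pow]⟩
  have e := (hb.pow k).mul hb'
  rw [one_mul, add_comm k j] at e
  exact e

theorem piece_eq_bot {d : ℕ} (hd : 0 < d) {t : ℕ}
    (ht : (d - 1) * ∑ i : Fin n, ((i : ℕ) + 1) < t) : piece K n d t = ⊥ := by
  have hempty : IsEmpty (Qi n d t) := by
    constructor
    rintro ⟨a, ha, hw⟩
    have h := wt_compl ha
    omega
  rw [piece_eq hd, Set.range_eq_empty, Submodule.span_empty]

theorem slp_of_inj {d : ℕ} (hd : 0 < d) {ℓ : AA K n d} (hℓ : ℓ ∈ piece K n d 1) {c : ℕ}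
    (hc : c = (d - 1) * ∑ i : Fin n, ((i : ℕ) + 1))
    (hinj : ∀ j, 2 * j < c → ∀ a ∈ piece K n d j, ℓ ^ (c - 2 * j) * a = 0 → a = 0) :
    HasSLP K n d := by
  refine ⟨ℓ, hℓ, fun j k hk => ?_⟩
  by_cases h1 : 2 * j + k ≤ c
  · left
    intro a ha h0
    refine hinj j (by omega) a ha ?_
    have e : c - 2 * j = (c - 2 * j - k) + k := by omega
    rw [e, pow_add, mul_assoc, h0, mul_zero]
  · right
    intro b hb
    by_cases h2 : c < j + k
    · rw [piece_eq_bot hd (by omega), Submodule.mem_bot] at hb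
      exact ⟨0, Submodule.zero_mem _, by rw [mul_zero, hb]⟩
    · have hj' : 2 * (c - (j + k)) < c := by omega
      have hs := surj_of_inj hd (j := c - (j + k)) (k := c - 2 * (c - (j + k))) (by rw [← hc]; omega)
        (ℓ ^ (c - 2 * (c - (j + k)))) (fun a ha => pow_mul_mem_piece hℓ _ _ ha)
        (hinj _ hj')
      have e1 : c - (j + k) + (c - 2 * (c - (j + k))) = j + k := by omega
      rw [e1] at hs
      obtain ⟨a', ha', e⟩ := hs b hb
      refine ⟨ℓ ^ (j - (c - (j + k))) * a', ?_, ?_⟩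
      · have h3 := pow_mul_mem_piece hℓ (c - (j + k)) (j - (c - (j + k))) ha'
        have e2 : c - (j + k) + (j - (c - (j + k))) = j := by omega
        rwa [e2] at h3
      · rw [← mul_assoc, ← pow_add]
        have e3 : k + (j - (c - (j + k))) = c - 2 * (c - (j + k)) := by omega
        rw [e3, e]

/-- `d = 1` -/
theorem slp_one (K : Type u) [Field K] (n : ℕ) : HasSLP K n 1 :=
  slp_of_inj (by norm_num) (Submodule.zero_mem _) (c := 0) (by simp) (fun j hj => absurd hj (by omega))

theorem tt_of_lt {d : ℕ} {q : Fin n →₀ ℕ} (hq : ∀ k, q k < d) :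
    tt K d q = eps K n (monomial q 1) := by
  have h1 : modd d q = q := by
    ext i
    exact Nat.mod_eq_of_lt (hq i)
  have h2 : divd d q = 0 := by
    ext i
    exact Nat.div_eq_of_lt (hq i)
  have h3 : eps K n (monomial 0 1) = 1 := map_one _
  rw [tt, h1, h2, h3, map_one (expand d), mul_one]

/-- the element `e_1` -/
noncomputable def b1 (K : Type u) [Field K] : BB K 2 :=
  ⟨esymm (Fin 2) K 1, Algebra.subset_adjoin ⟨0, rfl⟩⟩

/-- `n = 2`, `d` even -/
theorem slp_two_even [CharZero K] {m : ℕ} (hm : 1 ≤ m) : HasSLP K 2 (2 * m) := by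
  classical
  have hd : 0 < 2 * m := by omega
  refine slp_of_inj hd (ℓ := Ideal.Quotient.mk _ (b1 K)) (mem_piece.2 ⟨b1 K, ?_, rfl⟩)
    (c := 3 * (2 * m - 1)) ?_ ?_
  · exact esymm_isHomogeneous 1
  · rw [Fin.sum_univ_two]
    simp
    ring
  · intro j hj a ha h0
    have := Fintype.ofFinite (Qi 2 (2 * m) j)
    rw [piece_eq hd, Submodule.mem_span_range_iff_exists_fun] at ha
    obtain ⟨g, rfl⟩ := ha
    have h1 : Ideal.Quotient.mk (II K 2 (2 * m)) (b1 K ^ (3 * (2 * m - 1) - 2 * j) *
        ∑ q : Qi 2 (2 * m) j, g q • tb K (2 * m) q.1) = 0 := by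
      rw [map_mul, map_pow, map_sum]
      exact h0
    obtain ⟨α, β, e⟩ := mem_II_two (Ideal.Quotient.eq_zero_iff_mem.1 h1)
    have h2 : ((b1 K ^ (3 * (2 * m - 1) - 2 * j) *
        ∑ q : Qi 2 (2 * m) j, g q • tb K (2 * m) q.1 : BB K 2) : MvPolynomial (Fin 2) K) =
        eps K 2 (X 0 ^ (3 * (2 * m - 1) - 2 * j) *
          ∑ q : Qi 2 (2 * m) j, g q • monomial q.1 (1 : K)) := by
      rw [MulMemClass.coe_mul, SubmonoidClass.coe_pow, AddSubmonoidClass.coe_finsetSum, map_mul,
        map_pow, map_sum, eps_X0]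
      congr 1
      · change esymm (Fin 2) K 1 ^ _ = _
        rw [esymm_two_one]
      · refine Finset.sum_congr rfl fun q _ => ?_
        change g q • tt K (2 * m) q.1 = _
        rw [map_smul, tt_of_lt q.2.1]
    rw [h2] at e
    have h3 := inj_two hm hj g α β (eps_injective e)
    refine Finset.sum_eq_zero fun q _ => ?_
    rw [h3 q, zero_smul]

/-- non-unimodality implies the failure of the SLP -/
theorem not_slp_of_card {d i j k : ℕ} (hd : 0 < d) (hij : i < j) (hjk : j < k)
    (h1 : Nat.card (Qi n d j) < Nat.card (Qi n d i)) (h2 : Nat.card (Qi n d j) < Nat.card (Qi n d k)) :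
    ¬ HasSLP K n d := by
  have : NeZero d := ⟨hd.ne'⟩
  rintro ⟨ℓ, hℓ, h⟩
  let f : piece K n d i →ₗ[K] piece K n d (i + (j - i)) :=
    (LinearMap.mulLeft K (ℓ ^ (j - i))).restrict (fun a ha => pow_mul_mem_piece hℓ i (j - i) ha)
  let g : piece K n d j →ₗ[K] piece K n d (j + (k - j)) :=
    (LinearMap.mulLeft K (ℓ ^ (k - j))).restrict (fun a ha => pow_mul_mem_piece hℓ j (k - j) ha)
  have ei : i + (j - i) = j := by omega
  have ej : j + (k - j) = k := by omega
  have ek : i + (k - i) = k := by omega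
  rcases h i (k - i) (by omega) with hin | hsu
  · have hf : Function.Injective f := by
      rw [injective_iff_map_eq_zero]
      intro a ha
      apply Subtype.ext
      refine hin a.1 a.2 ?_
      have h0 : ℓ ^ (j - i) * a.1 = 0 := congrArg Subtype.val ha
      have e : k - i = (k - j) + (j - i) := by omega
      rw [e, pow_add, mul_assoc, h0, mul_zero]
    have := LinearMap.finrank_le_finrank_of_injective hf
    rw [finrank_piece hd, finrank_piece hd, ei] at this
    omega
  · have hg : Function.Surjective g := by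
      rintro ⟨b, hb⟩
      rw [ej, ← ek] at hb
      obtain ⟨a, ha, e⟩ := hsu b hb
      have ha' := pow_mul_mem_piece hℓ i (j - i) ha
      rw [ei] at ha'
      refine ⟨⟨ℓ ^ (j - i) * a, ha'⟩, Subtype.ext ?_⟩
      change ℓ ^ (k - j) * (ℓ ^ (j - i) * a) = b
      rw [← mul_assoc, ← pow_add]
      have e2 : k - j + (j - i) = k - i := by omega
      rw [e2, e]
    have := LinearMap.finrank_le_finrank_of_surjective hg
    rw [finrank_piece hd, finrank_piece hd, ej] at this
    omega

end Pool.Agent.H208.SLP
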