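import Mathlib
import Pool.Agent.H208.SLP.Quot

set_option autoImplicit false

universe u

namespace Pool.Agent.H208.SLP

open MvPolynomial Finset

variable {K : Type u} [Field K] {m : ℕ}

/-- the substitution `(x_1, ..., x_2m) = (u_1, ..., u_m, -u_1, ..., -u_m)` -/
noncomputable def phi (K : Type u) [Field K] (m : ℕ) :
    MvPolynomial (Fin (m + m)) K →ₐ[K] MvPolynomial (Fin m) K :=
  aeval (Fin.addCases (motive := fun _ => MvPolynomial (Fin m) K) (fun i => X i) (fun i => - X i))

/-- the substitution `x_i = -u_i^2` -/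
noncomputable def theta (K : Type u) [Field K] (m : ℕ) :
    MvPolynomial (Fin m) K →ₐ[K] MvPolynomial (Fin m) K :=
  aeval (fun i => - X i ^ 2)

theorem theta_injective : Function.Injective (theta K m) := by
  let nu : MvPolynomial (Fin m) K →ₐ[K] MvPolynomial (Fin m) K := aeval (fun i => - X i)
  have h1 : nu.comp nu = AlgHom.id K _ := by
    ext i : 1
    simp [nu]
  have h2 : theta K m = (expand 2).comp nu := by
    ext i : 1
    simp [theta, nu]
  have h3 : Function.Injective nu := by
    intro x y hxy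
    have e : ∀ z, nu (nu z) = z := fun z => DFunLike.congr_fun h1 z
    rw [← e x, ← e y, hxy]
  rw [h2, AlgHom.coe_comp]
  exact (expand_injective (by norm_num)).comp h3

theorem phi_esymm {k : ℕ} (hk : k ≤ m + m) :
    phi K m (esymm (Fin (m + m)) K (m + m - k)) =
      if 2 ∣ k then theta K m (esymm (Fin m) K (m - k / 2)) else 0 := by
  have h1 : (∏ i : Fin (m + m), (Polynomial.X + Polynomial.C (X i : MvPolynomial (Fin (m + m)) K))).map
      (phi K m).toRingHom = Polynomial.expand _ 2
        ((∏ i : Fin m, (Polynomial.X + Polynomial.C (X i : MvPolynomial (Fin m) K))).map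
          (theta K m).toRingHom) := by
    rw [Polynomial.map_prod, Polynomial.map_prod, map_prod, Fin.prod_univ_add, ← Finset.prod_mul_distrib]
    refine Finset.prod_congr rfl fun i _ => ?_
    have e1 : phi K m (X (Fin.castAdd m i)) = X i := by
      rw [phi, aeval_X, Fin.addCases_left]
    have e2 : phi K m (X (Fin.natAdd m i)) = - X i := by
      rw [phi, aeval_X, Fin.addCases_right]
    have e3 : theta K m (X i) = - X i ^ 2 := by
      rw [theta, aeval_X]
    simp only [Polynomial.map_add, Polynomial.map_X, Polynomial.map_C, AlgHom.toRingHom_eq_coe,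
      RingHom.coe_coe, e1, e2, e3, map_add, Polynomial.expand_X, Polynomial.expand_C, map_neg, map_pow]
    ring
  have h2 := congrArg (fun p => Polynomial.coeff p k) h1
  beta_reduce at h2
  rw [Polynomial.coeff_map, MvPolynomial.prod_X_add_C_coeff K (Fin (m + m)) k (by simpa using hk),
    Polynomial.coeff_expand (by norm_num), Polynomial.coeff_map] at h2
  rw [Fintype.card_fin] at h2
  refine Eq.trans h2 ?_
  split_ifs with h
  · rw [MvPolynomial.prod_X_add_C_coeff K (Fin m) (k / 2) (by rw [Fintype.card_fin]; omega),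
      Fintype.card_fin]
    rfl
  · rfl

theorem phi_esymm_even (r : Fin m) :
    phi K m (esymm (Fin (m + m)) K (2 * (r + 1))) = theta K m (esymm (Fin m) K (r + 1)) := by
  have hr := r.2
  have h := phi_esymm (K := K) (m := m) (k := m + m - 2 * (r + 1)) (by omega)
  rw [if_pos (by omega)] at h
  have e1 : m + m - (m + m - 2 * ((r : ℕ) + 1)) = 2 * (r + 1) := by omega
  have e2 : m - (m + m - 2 * ((r : ℕ) + 1)) / 2 = r + 1 := by omega
  rwa [e1, e2] at h

theorem phi_esymm_odd {j : ℕ} (hj : j ≤ m + m) (h2 : ¬ 2 ∣ j) :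
    phi K m (esymm (Fin (m + m)) K j) = 0 := by
  have h := phi_esymm (K := K) (m := m) (k := m + m - j) (by omega)
  rw [if_neg (by omega)] at h
  have e1 : m + m - (m + m - j) = j := by omega
  rwa [e1] at h

theorem phi_mem {p : MvPolynomial (Fin (m + m)) K} (hp : p ∈ BB K (m + m)) :
    ∃ q ∈ BB K m, phi K m p = theta K m q := by
  induction hp using Algebra.adjoin_induction with
  | mem x hx =>
    obtain ⟨i, rfl⟩ := hx
    beta_reduce
    have hi := i.2
    by_cases h2 : 2 ∣ (i : ℕ) + 1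
    · have e : (i : ℕ) + 1 = 2 * (((⟨((i : ℕ) + 1) / 2 - 1, by omega⟩ : Fin m) : ℕ) + 1) := by
        change (i : ℕ) + 1 = 2 * ((((i : ℕ) + 1) / 2 - 1) + 1)
        omega
      rw [e, phi_esymm_even]
      exact ⟨_, Algebra.subset_adjoin ⟨_, rfl⟩, rfl⟩
    · exact ⟨0, Subalgebra.zero_mem _, by rw [phi_esymm_odd (by omega) h2, map_zero]⟩
  | algebraMap r =>
    exact ⟨algebraMap _ _ r, Subalgebra.algebraMap_mem _ _, by rw [AlgHom.commutes, AlgHom.commutes]⟩
  | add x y _ _ hx hy =>
    obtain ⟨q, hq, e1⟩ := hx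
    obtain ⟨q', hq', e2⟩ := hy
    exact ⟨q + q', Subalgebra.add_mem _ hq hq', by rw [map_add, map_add, e1, e2]⟩
  | mul x y _ _ hx hy =>
    obtain ⟨q, hq, e1⟩ := hx
    obtain ⟨q', hq', e2⟩ := hy
    exact ⟨q * q', Subalgebra.mul_mem _ hq hq', by rw [map_mul, map_mul, e1, e2]⟩

theorem phi_expand {d : ℕ} (hd : Odd d) (p : MvPolynomial (Fin (m + m)) K) :
    phi K m (expand d p) = expand d (phi K m p) := by
  have h : (phi K m).comp (expand d) = (expand d).comp (phi K m) := by
    ext i : 1
    simp only [AlgHom.comp_apply, expand_X, map_pow, phi, aeval_X]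
    refine Fin.addCases (fun i => ?_) (fun i => ?_) i
    · rw [Fin.addCases_left, expand_X]
    · rw [Fin.addCases_right, map_neg, expand_X, hd.neg_pow]
  exact DFunLike.congr_fun h p

theorem theta_expand {d : ℕ} (hd : Odd d) (p : MvPolynomial (Fin m) K) :
    theta K m (expand d p) = expand d (theta K m p) := by
  have h : (theta K m).comp (expand d) = (expand d).comp (theta K m) := by
    ext i : 1
    simp only [AlgHom.comp_apply, expand_X, map_pow, theta, aeval_X, map_neg]
    rw [hd.neg_pow, ← pow_mul, ← pow_mul, mul_comm]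
  exact DFunLike.congr_fun h p

theorem phi_II {d : ℕ} (hd : Odd d) {b : BB K (m + m)} (hb : b ∈ II K (m + m) d) :
    ∃ g ∈ II K m d, phi K m (b : MvPolynomial (Fin (m + m)) K) =
      theta K m (g : MvPolynomial (Fin m) K) := by
  rw [II] at hb
  induction hb using Submodule.span_induction with
  | mem x hx =>
    obtain ⟨i, hi⟩ := hx
    have hi2 := i.2
    rw [hi, phi_expand hd]
    by_cases h2 : 2 ∣ (i : ℕ) + 1
    · obtain ⟨r, e⟩ : ∃ r : Fin m, (i : ℕ) + 1 = 2 * ((r : ℕ) + 1) := by
        refine ⟨⟨((i : ℕ) + 1) / 2 - 1, by omega⟩, ?_⟩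
        change (i : ℕ) + 1 = 2 * ((((i : ℕ) + 1) / 2 - 1) + 1)
        omega
      rw [e, phi_esymm_even, ← theta_expand hd]
      have hE : expand d (esymm (Fin m) K (r + 1)) ∈ BB K m := by
        obtain ⟨s, hs⟩ := expand_eps (K := K) d (X r)
        rw [mem_BB]
        refine ⟨s, ?_⟩
        rw [hs, eps, aeval_X]
      exact ⟨⟨_, hE⟩, Ideal.subset_span ⟨r, rfl⟩, rfl⟩
    · refine ⟨0, Ideal.zero_mem _, ?_⟩
      rw [phi_esymm_odd (by omega) h2, map_zero]
      change 0 = theta K m 0
      rw [map_zero]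
  | zero =>
    refine ⟨0, Ideal.zero_mem _, ?_⟩
    change phi K m 0 = theta K m 0
    rw [map_zero, map_zero]
  | add x y _ _ hx hy =>
    obtain ⟨g, hg, e1⟩ := hx
    obtain ⟨g', hg', e2⟩ := hy
    refine ⟨g + g', Ideal.add_mem _ hg hg', ?_⟩
    change phi K m ((x : MvPolynomial (Fin (m + m)) K) + y) =
      theta K m ((g : MvPolynomial (Fin m) K) + g')
    rw [map_add, map_add, e1, e2]
  | smul a x _ hx =>
    obtain ⟨g, hg, e1⟩ := hx
    obtain ⟨q, hq, e2⟩ := phi_mem a.2
    refine ⟨⟨q, hq⟩ * g, Ideal.mul_mem_left _ _ hg, ?_⟩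
    change phi K m ((a : MvPolynomial (Fin (m + m)) K) * x) =
      theta K m (q * (g : MvPolynomial (Fin m) K))
    rw [map_mul, map_mul, e1, e2]

/-- an element of degree one of `B` vanishes under `phi` -/
theorem phi_deg_one {b : BB K (m + m)}
    (hb : (b : MvPolynomial (Fin (m + m)) K).IsHomogeneous 1) :
    phi K m (b : MvPolynomial (Fin (m + m)) K) = 0 := by
  obtain ⟨s, hs⟩ := mem_BB.1 b.2
  rw [← hs] at hb ⊢
  have h := mem_span_eps s hb
  have hle : Submodule.span K
      (Set.range fun m' : {m' : Fin (m + m) →₀ ℕ // wt m' = 1} => eps K (m + m) (monomial m'.1 1)) ≤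
      LinearMap.ker (phi K m).toLinearMap := by
    rw [Submodule.span_le]
    rintro _ ⟨⟨a, ha⟩, rfl⟩
    change phi K m (eps K (m + m) (monomial a 1)) = 0
    have hpos : ∃ i : Fin (m + m), (i : ℕ) = 0 ∧ a i ≠ 0 := by
      by_contra hcon
      push Not at hcon
      have hne : ∃ i : Fin (m + m), ((i : ℕ) + 1) * a i ≠ 0 := by
        by_contra hall
        push Not at hall
        have : wt a = 0 := Finset.sum_eq_zero fun i _ => hall i
        omega
      obtain ⟨i, hi⟩ := hne
      have hle : ((i : ℕ) + 1) * a i ≤ wt a :=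
        Finset.single_le_sum (f := fun i : Fin (m + m) => ((i : ℕ) + 1) * a i)
          (fun _ _ => Nat.zero_le _) (Finset.mem_univ i)
      rw [ha] at hle
      have ha0 : a i ≠ 0 := fun h0 => hi (by rw [h0, mul_zero])
      have hi0 : (i : ℕ) ≠ 0 := fun h0 => ha0 (hcon i h0)
      have : 1 ≤ a i := Nat.one_le_iff_ne_zero.2 ha0
      have : 1 ≤ (i : ℕ) := Nat.one_le_iff_ne_zero.2 hi0
      nlinarith
    obtain ⟨i, hi0, hai⟩ := hpos
    rw [eps_monomial, map_prod]
    refine Finset.prod_eq_zero (Finset.mem_univ i) ?_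
    rw [map_pow, hi0, phi_esymm_odd (by have := i.2; omega) (by norm_num), zero_pow hai]
  exact hle h

/-- the element of `A(2m, d)` which is not in the image -/
noncomputable def f0 (K : Type u) [Field K] (m d : ℕ) : MvPolynomial (Fin (m + m)) K :=
  ∏ r : Fin m, esymm (Fin (m + m)) K (2 * (r + 1)) ^ (d - 1)

theorem f0_mem (d : ℕ) : f0 K m d ∈ BB K (m + m) := by
  refine Subalgebra.prod_mem _ fun r _ => Subalgebra.pow_mem _ (Algebra.subset_adjoin ?_) _
  exact ⟨⟨2 * r + 1, by have := r.2; omega⟩, rfl⟩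

theorem sum_two (m d : ℕ) : ∑ r : Fin m, 2 * ((r : ℕ) + 1) * d = d * m * (m + 1) := by
  induction m with
  | zero => simp
  | succ k ih =>
    rw [Fin.sum_univ_castSucc]
    simp only [Fin.val_castSucc, Fin.val_last]
    rw [ih]
    ring

theorem f0_hom (d : ℕ) : (f0 K m d).IsHomogeneous ((d - 1) * m * (m + 1)) := by
  rw [← sum_two]
  exact IsHomogeneous.prod _ _ _ fun r _ => (esymm_isHomogeneous _).pow _

/-- the top reduced exponent -/
noncomputable def top (m d : ℕ) : Fin m →₀ ℕ := Finsupp.equivFunOnFinite.symm (fun _ => d - 1)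

theorem tt_top {d : ℕ} (hd : 0 < d) : tt K d (top m d) = ∏ r : Fin m, esymm (Fin m) K (r + 1) ^ (d - 1) := by
  have h1 : modd d (top m d) = top m d := by
    ext i
    change (d - 1) % d = d - 1
    exact Nat.mod_eq_of_lt (by omega)
  have h2 : divd d (top m d) = 0 := by
    ext i
    change (d - 1) / d = 0
    exact Nat.div_eq_of_lt (by omega)
  rw [tt, h1, h2, eps_monomial]
  have h3 : eps K m (monomial 0 1) = 1 := map_one _
  rw [h3, map_one, mul_one]
  rfl

theorem phi_f0 {d : ℕ} (hd : 0 < d) : phi K m (f0 K m d) = theta K m (tt K d (top m d)) := by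
  rw [tt_top hd, f0, map_prod, map_prod]
  refine Finset.prod_congr rfl fun r _ => ?_
  rw [map_pow, map_pow, phi_esymm_even]

theorem sum_c (m : ℕ) : ∑ i : Fin (m + m), ((i : ℕ) + 1) = m * (2 * m + 1) := by
  have h : ∀ n : ℕ, ∑ i : Fin n, ((i : ℕ) + 1) * 2 = n * (n + 1) := by
    intro n
    induction n with
    | zero => simp
    | succ k ih =>
      rw [Fin.sum_univ_castSucc]
      simp only [Fin.val_castSucc, Fin.val_last]
      rw [ih]
      ring
  have h1 := h (m + m)
  rw [← Finset.sum_mul] at h1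
  nlinarith

/-- **Main result**: for `n` even and `d ≥ 3` odd, `A(n,d)` fails the strong Lefschetz property. -/
theorem not_slp (K : Type u) [Field K] {m d : ℕ} (hm : 1 ≤ m) (hd : Odd d) (hd3 : 3 ≤ d) :
    ¬ HasSLP K (m + m) d := by
  have hd0 : 0 < d := by omega
  rintro ⟨ℓ, hℓ, h⟩
  obtain ⟨b, hb, rfl⟩ := mem_piece.1 hℓ
  have hclosed : ∀ j k : ℕ, ∀ a ∈ piece K (m + m) d j,
      (Ideal.Quotient.mk (II K (m + m) d) b) ^ k * a ∈ piece K (m + m) d (j + k) := by
    intro j k a ha
    obtain ⟨b', hb', rfl⟩ := mem_piece.1 ha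
    refine mem_piece.2 ⟨b ^ k * b', ?_, by rw [map_mul, map_pow]⟩
    have e := (hb.pow k).mul hb'
    rw [one_mul, add_comm k j] at e
    exact e
  have hnot : ¬ ∀ y ∈ piece K (m + m) d ((d - 1) * m * m + (d - 1) * m),
      ∃ a ∈ piece K (m + m) d ((d - 1) * m * m),
        (Ideal.Quotient.mk (II K (m + m) d) b) ^ ((d - 1) * m) * a = y := by
    intro hs
    have hf0 : (f0 K m d).IsHomogeneous ((d - 1) * m * m + (d - 1) * m) := by
      have := f0_hom (K := K) (m := m) d
      rwa [mul_add, mul_one] at this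
    obtain ⟨a, ha, e⟩ := hs (Ideal.Quotient.mk _ ⟨f0 K m d, f0_mem d⟩)
      (mem_piece.2 ⟨⟨f0 K m d, f0_mem d⟩, hf0, rfl⟩)
    obtain ⟨b', hb', rfl⟩ := mem_piece.1 ha
    rw [← map_pow, ← map_mul, Ideal.Quotient.mk_eq_mk_iff_sub_mem] at e
    obtain ⟨g, hg, eg⟩ := phi_II hd e
    have hk : (d - 1) * m ≠ 0 := by
      have : 1 ≤ (d - 1) * m := Nat.mul_pos (by omega) hm
      omega
    have e1 : phi K m (((b ^ ((d - 1) * m) * b' - ⟨f0 K m d, f0_mem d⟩ : BB K (m + m))) :
        MvPolynomial (Fin (m + m)) K) = - theta K m (tt K d (top m d)) := by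
      change phi K m ((b : MvPolynomial (Fin (m + m)) K) ^ ((d - 1) * m) * b' - f0 K m d) = _
      rw [map_sub, map_mul, map_pow, phi_deg_one hb, zero_pow hk, zero_mul, zero_sub,
        phi_f0 hd0]
    rw [e1, ← map_neg] at eg
    have e2 := theta_injective eg
    have e3 : tb K d (top m d) = - g := by
      apply Subtype.ext
      change tt K d (top m d) = - (g : MvPolynomial (Fin m) K)
      rw [← e2, neg_neg]
    have e4 : qq K d (top m d) = 0 := by
      rw [qq, e3]
      exact Ideal.Quotient.eq_zero_iff_mem.2 (neg_mem hg)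
    have hlt : ∀ k, top m d k < d := by
      intro k
      change d - 1 < d
      omega
    exact qq_ne_zero hd0 hlt e4
  rcases h ((d - 1) * m * m) ((d - 1) * m) (Nat.mul_pos (by omega) hm) with hinj | hsurj
  · refine hnot (surj_of_inj hd0 ?_ _ (fun a ha => hclosed _ _ a ha) hinj)
    rw [sum_c]
    ring
  · exact hnot hsurj

end Pool.Agent.H208.SLP
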