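import Mathlib
import Pool.Agent.H208.SLP.Assemble

set_option autoImplicit false

/-!
# The pair `(n, d) = (9, 3)`
-/

universe u

namespace Pool.Agent.H208.SLP

open Finset

/-- number of `a` in `{0,1,2}^n` of weight `t` -/
def cnt3 : ℕ → ℕ → ℕ
  | 0, t => if t = 0 then 1 else 0
  | (n + 1), t => cnt3 n t + (if n + 1 ≤ t then cnt3 n (t - (n + 1)) else 0) +
      (if 2 * (n + 1) ≤ t then cnt3 n (t - 2 * (n + 1)) else 0)

/-- functions to `Fin 3` of weight `t` -/
abbrev Fn3 (n t : ℕ) : Type := {a : Fin n → Fin 3 // ∑ i : Fin n, ((i : ℕ) + 1) * (a i : ℕ) = t}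

theorem card_shift (n t s : ℕ) :
    Nat.card {a : Fin n → Fin 3 // ∑ i : Fin n, ((i : ℕ) + 1) * (a i : ℕ) + s = t} =
      if s ≤ t then Nat.card (Fn3 n (t - s)) else 0 := by
  split_ifs with h
  · refine Nat.card_congr (Equiv.subtypeEquivRight fun a => ?_)
    omega
  · rw [Nat.card_eq_zero]
    left
    constructor
    rintro ⟨a, ha⟩
    omega

theorem card_Fn3 (n t : ℕ) : Nat.card (Fn3 n t) = cnt3 n t := by
  induction n generalizing t with
  | zero =>
    rw [cnt3]
    split_ifs with h
    · subst h
      rw [Nat.card_eq_one_iff_unique]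
      exact ⟨⟨fun a b => Subtype.ext (funext fun i => i.elim0)⟩, ⟨⟨fun i => i.elim0, by simp⟩⟩⟩
    · rw [Nat.card_eq_zero]
      left
      constructor
      rintro ⟨a, ha⟩
      apply h
      rw [← ha]
      simp
  | succ n ih =>
    have e : Fn3 (n + 1) t ≃ Σ x : Fin 3,
        {a : Fin n → Fin 3 // ∑ i : Fin n, ((i : ℕ) + 1) * (a i : ℕ) + (n + 1) * (x : ℕ) = t} :=
      { toFun := fun a => ⟨a.1 (Fin.last n), fun i => a.1 i.castSucc, by
          have := a.2
          rw [Fin.sum_univ_castSucc] at this
          exact this⟩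
        invFun := fun y => ⟨Fin.snoc (α := fun _ => Fin 3) y.2.1 y.1, by
          rw [Fin.sum_univ_castSucc]
          simp only [Fin.snoc_castSucc, Fin.snoc_last, Fin.val_castSucc, Fin.val_last]
          exact y.2.2⟩
        left_inv := fun a => by
          apply Subtype.ext
          funext i
          refine Fin.lastCases ?_ (fun i => ?_) i
          · simp
          · simp
        right_inv := fun y => by
          obtain ⟨x, a, ha⟩ := y
          refine Sigma.subtype_ext ?_ ?_
          · simp
          · funext i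
            simp }
    rw [Nat.card_congr e, Nat.card_sigma, Fin.sum_univ_three, card_shift, card_shift, card_shift, cnt3]
    simp only [Fin.val_zero, Fin.val_one, Fin.val_two, mul_zero, mul_one, Nat.zero_le, if_true,
      Nat.sub_zero, ih]
    rw [mul_comm (n + 1) 2]

theorem card_Qi_three (n t : ℕ) : Nat.card (Qi n 3 t) = cnt3 n t := by
  rw [← card_Fn3]
  refine Nat.card_congr
    { toFun := fun a => ⟨fun k => ⟨a.1 k, a.2.1 k⟩, a.2.2⟩
      invFun := fun a => ⟨Finsupp.equivFunOnFinite.symm (fun k => (a.1 k : ℕ)), fun k => (a.1 k).2, a.2⟩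
      left_inv := fun a => by
        apply Subtype.ext
        ext k
        rfl
      right_inv := fun a => by
        apply Subtype.ext
        funext k
        rfl }

theorem not_slp_nine_three (K : Type u) [Field K] : ¬ HasSLP K 9 3 := by
  refine not_slp_of_card (i := 44) (j := 45) (k := 46) (by norm_num) (by norm_num) (by norm_num) ?_ ?_
  · rw [card_Qi_three, card_Qi_three]
    decide +kernel
  · rw [card_Qi_three, card_Qi_three]
    decide +kernel

end Pool.Agent.H208.SLP
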